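import Pool.Agent.helper41.HFE.SpecK

/-!
# Project HFE (MP_3221a1_ag), row hfe:UXX: two curves of the first kind are associated
-/

set_option autoImplicit false

open Polynomial Module Pool.Agent.HFN

namespace Pool.Agent.HFE

noncomputable section

/-- the arithmetic -/
theorem UXX_num (κ r v v' i i' s s' β β' n S S' : ℕ) (hκ : 2 ≤ κ) (hi : κ ≤ i) (hi' : κ ≤ i') (hs : s + β + 2 ≤ κ) (hs' : s' + β' + 2 ≤ κ)
    (h1 : r + 3 + i * β ≤ 2 * v + s) (h2 : r + 3 + i' * β' ≤ 2 * v' + s') (h3 : v + v' + S ≤ r + n) (h4 : v' + v + S' ≤ r + n)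
    (h5 : (i - 1) * s ≤ 2 * S) (h6 : (i' - 1) * s' ≤ 2 * S') (hn : n ≤ β + β' + 2) : False := by
  obtain ⟨k, rfl⟩ : ∃ k, i = k + 2 := ⟨i - 2, by omega⟩
  obtain ⟨k', rfl⟩ : ∃ k', i' = k' + 2 := ⟨i' - 2, by omega⟩
  have e1 : k + 2 - 1 = k + 1 := by omega
  have e2 : k' + 2 - 1 = k' + 1 := by omega
  rw [e1] at h5
  rw [e2] at h6
  have g1 : 2 + k * β + k' * β' + k * s ≤ s' := by nlinarith
  have g2 : 2 + k * β + k' * β' + k' * s' ≤ s := by nlinarith
  rcases Nat.lt_or_ge 2 κ with hk | hk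
  · have q1 : s ≤ k * s := Nat.le_mul_of_pos_left s (by omega)
    have q2 : s' ≤ k' * s' := Nat.le_mul_of_pos_left s' (by omega)
    have q3 : 0 ≤ k * β := Nat.zero_le _
    have q4 : 0 ≤ k' * β' := Nat.zero_le _
    omega
  · have q1 : 2 ≤ s' := le_trans (by omega) g1
    omega

theorem UXX_fib (S : Finset (ℂ × ℂ)) (U : Finset ℂ) (hS : ∀ z ∈ S, z.2 ∈ U) : S.card = ∑ y ∈ U, (S.filter fun z => z.2 = y).card := by
  classical
  exact Finset.card_eq_sum_card_fiberwise (f := Prod.snd) (t := U) (fun z hz => hS z hz)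

/-- the points on two curves and in rows without points on the first one -/
theorem UXX_set (hHIT : HIT_stmt) (Z : Finset (ℂ × ℂ)) (g g' : AA) (hg' : Irreducible g') (hX' : dX g' = 1) (hY' : 1 ≤ dY g') (U : Finset ℂ)
    (hU : ∀ y ∈ U, ∀ z ∈ Z, z.2 = y → ev z g ≠ 0) (n : ℕ) (A A' : Finset (ℂ × ℂ)) (hA : ∀ z, z ∈ A ↔ z ∈ Z ∧ ev z g = 0)
    (hA' : ∀ z, z ∈ A' ↔ z ∈ Z ∧ ev z g' = 0) (hn : A.card + A'.card ≤ (A ∪ A').card + n) :
    A.card + A'.card + ∑ y ∈ U, (mr Z y - 1) ≤ Z.card + n := by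
  classical
  obtain ⟨-, i2⟩ := hHIT g' hg' (by omega) hY'
  have hR : (Z.filter fun z => z.2 ∈ U).card = ∑ y ∈ U, mr Z y := by
    rw [UXX_fib (Z.filter fun z => z.2 ∈ U) U (fun z hz => (Finset.mem_filter.1 hz).2)]
    refine Finset.sum_congr rfl fun y hy => ?_
    unfold mr
    congr 1
    ext z
    simp only [Finset.mem_filter]
    constructor
    · rintro ⟨⟨h1, -⟩, h3⟩
      exact ⟨h1, h3⟩
    · rintro ⟨h1, h3⟩
      exact ⟨⟨h1, by rw [h3]; exact hy⟩, h3⟩
  have hB : (A'.filter fun z => z.2 ∈ U).card + ∑ y ∈ U, (mr Z y - 1) ≤ ∑ y ∈ U, mr Z y := by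
    rw [UXX_fib (A'.filter fun z => z.2 ∈ U) U (fun z hz => (Finset.mem_filter.1 hz).2), ← Finset.sum_add_distrib]
    refine Finset.sum_le_sum fun y hy => ?_
    have h1 : ((A'.filter fun z => z.2 ∈ U).filter fun z => z.2 = y).card ≤ 1 := by
      have h3 : Set.InjOn Prod.fst (((A'.filter fun z => z.2 ∈ U).filter fun z => z.2 = y : Finset (ℂ × ℂ)) : Set (ℂ × ℂ)) := by
        intro a ha a' ha' e
        rw [Finset.mem_coe, Finset.mem_filter] at ha ha'
        exact Prod.ext e (by rw [ha.2, ha'.2])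
      rw [← Finset.card_image_of_injOn h3]
      refine (i2 y _ fun x hx => ?_).trans hX'.le
      rw [Finset.mem_image] at hx
      obtain ⟨a, ha, rfl⟩ := hx
      rw [Finset.mem_filter, Finset.mem_filter] at ha
      have h4 : (a.1, y) = a := Prod.ext rfl ha.2.symm
      rw [h4]
      exact ((hA' a).1 ha.1.1).2
    have h2 : ((A'.filter fun z => z.2 ∈ U).filter fun z => z.2 = y).card ≤ mr Z y := by
      unfold mr
      refine Finset.card_le_card fun z hz => ?_
      rw [Finset.mem_filter, Finset.mem_filter] at hz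
      rw [Finset.mem_filter]
      exact ⟨((hA' z).1 hz.1.1).1, hz.2⟩
    omega
  have hC : ((A ∪ A') ∪ (Z.filter fun z => z.2 ∈ U)).card ≤ Z.card := by
    refine Finset.card_le_card fun z hz => ?_
    rw [Finset.mem_union, Finset.mem_union, Finset.mem_filter] at hz
    rcases hz with (hz | hz) | hz
    · exact ((hA z).1 hz).1
    · exact ((hA' z).1 hz).1
    · exact hz.1
  have hD := Finset.card_union_add_card_inter (A ∪ A') (Z.filter fun z => z.2 ∈ U)
  have hE : ((A ∪ A') ∩ (Z.filter fun z => z.2 ∈ U)).card ≤ (A'.filter fun z => z.2 ∈ U).card := by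
    refine Finset.card_le_card fun z hz => ?_
    rw [Finset.mem_inter, Finset.mem_union, Finset.mem_filter] at hz
    rw [Finset.mem_filter]
    refine ⟨?_, hz.2.2⟩
    rcases hz.1 with h | h
    · exact absurd ((hA z).1 h).2 (hU z.2 hz.2.2 z hz.2.1 rfl)
    · exact h
  omega

theorem UXX (hBZT : BZT_stmt) (hHIT : HIT_stmt) : UXX_stmt := by
  classical
  intro κ Z g g' hκ hg hg'
  obtain ⟨gi, gX, gY, i, s, U, hi, hs, hB, hU, hA⟩ := hg
  obtain ⟨gi', gX', gY', i', s', U', hi', hs', hB', hU', hA'⟩ := hg'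
  by_contra hna
  have hnd : ¬ g ∣ g' := fun h => hna (gi.associated_of_dvd gi' h)
  have hS0 := hBZT g g' gi hnd (dX g') (dY g') (mem_V.2 ⟨le_refl _, le_refl _⟩) ∅
    ((Z.filter fun z => ev z g = 0) ∩ (Z.filter fun z => ev z g' = 0)) (Finset.disjoint_empty_left _)
    (fun z hz => absurd hz (Finset.notMem_empty z)) (fun z hz => by
      rw [Finset.mem_inter, Finset.mem_filter, Finset.mem_filter] at hz
      exact ⟨hz.1.2, hz.2.2⟩)
  rw [Finset.card_empty, mul_zero, zero_add] at hS0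
  have e1 : nn Z g = (Z.filter fun z => ev z g = 0).card := by
    unfold nn
    congr
  have e2 : nn Z g' = (Z.filter fun z => ev z g' = 0).card := by
    unfold nn
    congr
  have hip : ip (dX g') (dY g') g = dY g + dY g' := by
    unfold ip
    rw [gX, gX']
    ring
  rw [hip] at hS0
  have u1 := Finset.card_union_add_card_inter (Z.filter fun z => ev z g = 0) (Z.filter fun z => ev z g' = 0)
  have t1 := UXX_set hHIT Z g g' gi' gX' gY' U hU (dY g + dY g') (Z.filter fun z => ev z g = 0) (Z.filter fun z => ev z g' = 0)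
    (fun z => Finset.mem_filter) (fun z => Finset.mem_filter) (by omega)
  have t2 := UXX_set hHIT Z g' g gi gX gY U' hU' (dY g + dY g') (Z.filter fun z => ev z g' = 0) (Z.filter fun z => ev z g = 0)
    (fun z => Finset.mem_filter) (fun z => Finset.mem_filter) (by rw [Finset.union_comm]; omega)
  rw [← e1, ← e2] at t1 t2
  obtain ⟨β, hβ⟩ : ∃ β, dY g = β + 1 := ⟨dY g - 1, by omega⟩
  obtain ⟨β', hβ'⟩ : ∃ β', dY g' = β' + 1 := ⟨dY g' - 1, by omega⟩
  rw [hβ] at hs hB t1 t2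
  rw [hβ'] at hs' hB' t1 t2
  rw [Nat.add_sub_cancel] at hB hB'
  exact UXX_num κ Z.card (nn Z g) (nn Z g') i i' s s' β β' (β + 1 + (β' + 1)) _ _ hκ hi hi' (by omega) (by omega) hB hB' t1 t2 hA hA' (by omega)

end

end Pool.Agent.HFE
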