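import Pool.Agent.helper41.HFE.Spec

set_option autoImplicit false

/-!
Row hfe:RNK (MP_3221a1_ag): the rank of a functional on the quotient by double points is at most `2 r`
-/

open Polynomial Module Pool.Agent.HFN

namespace Pool.Agent.HFE

noncomputable section

/-- the value as a linear map -/
def RNK_ev (z : ℂ × ℂ) : AA →ₗ[ℂ] ℂ where
  toFun f := ev z f
  map_add' f g := ev_add z f g
  map_smul' c f := by rw [ev_smul, RingHom.id_apply, smul_eq_mul]

/-- the derivative with respect to `x` as a linear map -/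
def RNK_dx (z : ℂ × ℂ) : AA →ₗ[ℂ] ℂ where
  toFun f := ev z (Dx f)
  map_add' f g := by rw [Dx_add, ev_add]
  map_smul' c f := by rw [Dx_smul, ev_smul, RingHom.id_apply, smul_eq_mul]

/-- the derivative with respect to `y` as a linear map -/
def RNK_dy (z : ℂ × ℂ) : AA →ₗ[ℂ] ℂ where
  toFun f := ev z (Dy f)
  map_add' f g := by rw [Dy_add, ev_add]
  map_smul' c f := by rw [Dy_smul, ev_smul, RingHom.id_apply, smul_eq_mul]

/-- the functional is a combination of values and derivatives -/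
theorem RNK_rep (hINT : INT_stmt) (Z : Finset (ℂ × ℂ)) (φ : AA →ₗ[ℂ] ℂ) (hφ : ∀ f ∈ JJ Z two, φ f = 0) :
    ∃ α β γ : ℂ × ℂ → ℂ, ∀ f : AA, φ f = ∑ z ∈ Z, (α z * ev z f + β z * ev z (Dx f) + γ z * ev z (Dy f)) := by
  classical
  have h0 : ∀ z : ℂ × ℂ, ∃ e : AA, ∀ w ∈ Z, RNK_ev w e = (if w = z then 1 else 0) ∧ RNK_dx w e = 0 ∧ RNK_dy w e = 0 := by
    intro z
    obtain ⟨e, -, he⟩ := hINT Z (fun w => if w = z then 1 else 0) (fun _ => 0) (fun _ => 0) _ _ le_rfl le_rfl
    exact ⟨e, he⟩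
  have h1 : ∀ z : ℂ × ℂ, ∃ e : AA, ∀ w ∈ Z, RNK_ev w e = 0 ∧ RNK_dx w e = (if w = z then 1 else 0) ∧ RNK_dy w e = 0 := by
    intro z
    obtain ⟨e, -, he⟩ := hINT Z (fun _ => 0) (fun w => if w = z then 1 else 0) (fun _ => 0) _ _ le_rfl le_rfl
    exact ⟨e, he⟩
  have h2 : ∀ z : ℂ × ℂ, ∃ e : AA, ∀ w ∈ Z, RNK_ev w e = 0 ∧ RNK_dx w e = 0 ∧ RNK_dy w e = (if w = z then 1 else 0) := by
    intro z
    obtain ⟨e, -, he⟩ := hINT Z (fun _ => 0) (fun _ => 0) (fun w => if w = z then 1 else 0) _ _ le_rfl le_rfl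
    exact ⟨e, he⟩
  choose e0 he0 using h0
  choose e1 he1 using h1
  choose e2 he2 using h2
  refine ⟨fun z => φ (e0 z), fun z => φ (e1 z), fun z => φ (e2 z), fun f => ?_⟩
  have key : f - ∑ z ∈ Z, (ev z f • e0 z + ev z (Dx f) • e1 z + ev z (Dy f) • e2 z) ∈ JJ Z two := by
    rw [mem_JJ]
    intro w hw
    have a0 : RNK_ev w (f - ∑ z ∈ Z, (ev z f • e0 z + ev z (Dx f) • e1 z + ev z (Dy f) • e2 z)) = 0 := by
      rw [map_sub, map_sum, Finset.sum_eq_single w]
      · rw [map_add, map_add, map_smul, map_smul, map_smul, (he0 w w hw).1, (he1 w w hw).1, (he2 w w hw).1, if_pos rfl]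
        show ev w f - _ = 0
        simp
      · intro z _ hz
        rw [map_add, map_add, map_smul, map_smul, map_smul, (he0 z w hw).1, (he1 z w hw).1, (he2 z w hw).1,
          if_neg (fun h => hz h.symm)]
        simp
      · intro h
        exact absurd hw h
    have a1 : RNK_dx w (f - ∑ z ∈ Z, (ev z f • e0 z + ev z (Dx f) • e1 z + ev z (Dy f) • e2 z)) = 0 := by
      rw [map_sub, map_sum, Finset.sum_eq_single w]
      · rw [map_add, map_add, map_smul, map_smul, map_smul, (he0 w w hw).2.1, (he1 w w hw).2.1, (he2 w w hw).2.1, if_pos rfl]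
        show ev w (Dx f) - _ = 0
        simp
      · intro z _ hz
        rw [map_add, map_add, map_smul, map_smul, map_smul, (he0 z w hw).2.1, (he1 z w hw).2.1, (he2 z w hw).2.1,
          if_neg (fun h => hz h.symm)]
        simp
      · intro h
        exact absurd hw h
    have a2 : RNK_dy w (f - ∑ z ∈ Z, (ev z f • e0 z + ev z (Dx f) • e1 z + ev z (Dy f) • e2 z)) = 0 := by
      rw [map_sub, map_sum, Finset.sum_eq_single w]
      · rw [map_add, map_add, map_smul, map_smul, map_smul, (he0 w w hw).2.2, (he1 w w hw).2.2, (he2 w w hw).2.2, if_pos rfl]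
        show ev w (Dy f) - _ = 0
        simp
      · intro z _ hz
        rw [map_add, map_add, map_smul, map_smul, map_smul, (he0 z w hw).2.2, (he1 z w hw).2.2, (he2 z w hw).2.2,
          if_neg (fun h => hz h.symm)]
        simp
      · intro h
        exact absurd hw h
    exact ⟨fun _ => a0, fun _ => ⟨a0, a1, a2⟩⟩
  have h3 := hφ _ key
  rw [map_sub, sub_eq_zero, map_sum] at h3
  rw [h3]
  refine Finset.sum_congr rfl fun z _ => ?_
  rw [map_add, map_add, map_smul, map_smul, map_smul, smul_eq_mul, smul_eq_mul, smul_eq_mul]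
  ring

theorem RNK (hINT : INT_stmt) : RNK_stmt := by
  classical
  intro Z φ hφ
  obtain ⟨α, β, γ, hrep⟩ := RNK_rep hINT Z φ hφ
  let Ψ : AA →ₗ[ℂ] (Z → ℂ) × (Z → ℂ) := (LinearMap.pi fun z : Z => RNK_ev z.1).prod
    (LinearMap.pi fun z : Z => β z.1 • RNK_dx z.1 + γ z.1 • RNK_dy z.1)
  have hle : LinearMap.ker Ψ ≤ ((An φ).restrictScalars ℂ : Submodule ℂ AA) := by
    intro f hf
    have hf0 : Ψ f = 0 := hf
    have f1 : ∀ z ∈ Z, ev z f = 0 := fun z hz => congrFun (congrArg Prod.fst hf0) ⟨z, hz⟩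
    have f2 : ∀ z ∈ Z, β z * ev z (Dx f) + γ z * ev z (Dy f) = 0 := fun z hz => congrFun (congrArg Prod.snd hf0) ⟨z, hz⟩
    show f ∈ An φ
    rw [mem_An]
    intro g
    rw [hrep]
    refine Finset.sum_eq_zero fun z hz => ?_
    rw [ev_mul, Dx_mul, Dy_mul, ev_add, ev_add, ev_mul, ev_mul, ev_mul, ev_mul, f1 z hz]
    linear_combination ev z g * f2 z hz
  have hfin : Module.Finite ℂ (AA ⧸ LinearMap.ker Ψ) := Module.Finite.equiv (LinearMap.quotKerEquivRange Ψ).symm
  refine ⟨Module.Finite.of_surjective (Submodule.factor hle) (Submodule.factor_surjective hle), ?_⟩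
  have h1 : cod (An φ) ≤ finrank ℂ (AA ⧸ LinearMap.ker Ψ) :=
    LinearMap.finrank_le_finrank_of_surjective (f := Submodule.factor hle) (Submodule.factor_surjective hle)
  have h2 : finrank ℂ (AA ⧸ LinearMap.ker Ψ) = finrank ℂ (LinearMap.range Ψ) := (LinearMap.quotKerEquivRange Ψ).finrank_eq
  have h3 : finrank ℂ (LinearMap.range Ψ) ≤ finrank ℂ ((Z → ℂ) × (Z → ℂ)) := Submodule.finrank_le _
  have h4 : finrank ℂ ((Z → ℂ) × (Z → ℂ)) = 2 * Z.card := by
    rw [Module.finrank_prod, Module.finrank_fintype_fun_eq_card, Fintype.card_coe]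
    ring
  omega

end

end Pool.Agent.HFE
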